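import Pool.Agent.Helper99.MKV.GoalsC

/-! # Packet MKV SQM (helper79): second moment of a charge -/

set_option autoImplicit false

open Finset

namespace Pool.Agent.Helper79.MKV

open Pool.Agent.Helper99.MKV Pool.Agent.Helper99.EXC Pool.Agent.Helper99.ERW

lemma Bx_mono (b : ℕ) {k l : ℕ} (h : k ≤ l) : Bx b k ⊆ Bx b l := by
  intro x hx
  unfold Bx at hx ⊢
  rw [mem_box] at hx ⊢
  intro i
  refine (hx i).trans ?_
  exact_mod_cast Nat.mul_le_mul_left b (Nat.pow_le_pow_right (by norm_num) h)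

lemma nm_nn (x : Site 2) : 0 ≤ nm x := le_trans (abs_nonneg _) (le_max_left _ _)

lemma Nk_nn (b k : ℕ) (x : Site 2) : 0 ≤ Nk b k x := by
  unfold Nk
  have := nm_nn x
  split_ifs <;> positivity

lemma Gk_nn (b k : ℕ) (x : Site 2) : 0 ≤ Gk b k x := by
  unfold Gk
  have := nm_nn x
  split_ifs <;> positivity

/-- sum over a big set of a function supported on `D` -/
lemma sum_supp (Λ D : Finset (Site 2)) (f : Site 2 → ℝ) (h0 : ∀ x, 0 ≤ f x)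
    (hD : ∀ x, x ∉ D → f x = 0) : ∑ x ∈ Λ, f x ≤ ∑ x ∈ D, f x := by
  classical
  have h1 : ∑ x ∈ Λ, f x = ∑ x ∈ Λ ∩ D, f x := by
    symm
    apply Finset.sum_subset Finset.inter_subset_left
    intro x hx hx'
    apply hD
    intro hxD
    exact hx' (Finset.mem_inter.mpr ⟨hx, hxD⟩)
  rw [h1]
  exact Finset.sum_le_sum_of_subset_of_nonneg Finset.inter_subset_right fun x _ _ => h0 x

lemma sum_card (Λ D : Finset (Site 2)) (f : Site 2 → ℝ) (c : ℝ) (h0 : ∀ x, 0 ≤ f x)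
    (hD : ∀ x, x ∉ D → f x = 0) (hc : ∀ x, f x ≤ c) : ∑ x ∈ Λ, f x ≤ D.card * c := by
  refine (sum_supp Λ D f h0 hD).trans ?_
  have := Finset.sum_le_card_nsmul D f c (fun x _ => hc x)
  simpa [nsmul_eq_mul] using this

/-- bound of a charge -/
lemma VV_bd {E : Type*} (g : Site 2 → E → ℝ) (D : Finset (Site 2)) (v : Site 2 → ℝ) (A B : ℝ)
    (hA : 0 ≤ A) (hv : ∀ x, |v x| ≤ A) (hg : ∀ z e, |g z e| ≤ B) (t : MSt E) :
    |VV g D v t| ≤ D.card * (A * B) := by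
  unfold VV
  refine (Finset.abs_sum_le_sum_abs _ _).trans ?_
  have := Finset.sum_le_card_nsmul D (fun z => |v z * g z (t.2 z)|) (A * B) (fun z _ => by
    rw [abs_mul]
    exact mul_le_mul (hv z) (hg _ _) (abs_nonneg _) hA)
  simpa [nsmul_eq_mul] using this

/-- pointwise inequality -/
lemma pw (y c w w0 μ F e K Z0 C1 γ q : ℝ) (hμ : 0 ≤ μ) (hK : 0 ≤ K) (hy : |y - K * c| ≤ Z0)
    (hc : |c| ≤ C1) (hw : |w| ≤ C1) (hyg : |y| ≤ γ) (he : |e| ≤ q) :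
    2 * y * (-(μ * (c - w)) + F + e) ≤
      K * w0 ^ 2 * μ + K * (μ * (w - w0) ^ 2) + 4 * Z0 * C1 * μ + 2 * (y * F) + 2 * γ * q := by
  have h1 : |y * e| ≤ γ * q := by
    rw [abs_mul]
    exact mul_le_mul hyg he (abs_nonneg _) ((abs_nonneg _).trans hyg)
  have h2 : |(y - K * c) * (c - w)| ≤ Z0 * (2 * C1) := by
    rw [abs_mul]
    refine mul_le_mul hy ?_ (abs_nonneg _) ((abs_nonneg _).trans hy)
    calc |c - w| ≤ |c| + |w| := abs_sub _ _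
      _ ≤ 2 * C1 := by linarith
  have h3 := (abs_le.mp h1).2
  have h4 := (abs_le.mp h2).1
  have h5 : 2 * y * (-(μ * (c - w))) = μ * (K * (-2 * c ^ 2 + 2 * c * w)) -
      μ * (2 * ((y - K * c) * (c - w))) := by ring
  have h6 : -2 * c ^ 2 + 2 * c * w ≤ w0 ^ 2 + (w - w0) ^ 2 := by
    nlinarith [sq_nonneg (c - w / 2), sq_nonneg (w0 - (w - w0)), sq_nonneg c]
  have h7 : μ * (K * (-2 * c ^ 2 + 2 * c * w)) ≤ μ * (K * (w0 ^ 2 + (w - w0) ^ 2)) :=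
    mul_le_mul_of_nonneg_left (mul_le_mul_of_nonneg_left h6 hK) hμ
  have h8 : -(μ * (2 * ((y - K * c) * (c - w)))) ≤ μ * (4 * Z0 * C1) := by
    have : -(2 * ((y - K * c) * (c - w))) ≤ 4 * Z0 * C1 := by linarith
    have := mul_le_mul_of_nonneg_left this hμ
    linarith
  have h9 : 2 * y * (-(μ * (c - w)) + F + e) =
      2 * y * (-(μ * (c - w))) + 2 * (y * F) + 2 * (y * e) := by ring
  rw [h9, h5]
  nlinarith

lemma core {E ι : Type*} [Fintype ι] {U : Sys E ι} (hU : U.Ok) (Λ : Finset (Site 2)) (N : ℕ)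
    (s0 : MSt E) (Y c w F : MSt E → ℝ) (μ q g2 : Site 2 → ℝ) (K Z0 C1 γ w0 : ℝ)
    (hμ : ∀ x, 0 ≤ μ x) (hK : 0 ≤ K) (hYc : ∀ t, |Y t - K * c t| ≤ Z0) (hc : ∀ t, |c t| ≤ C1)
    (hw : ∀ t, |w t| ≤ C1) (hY : ∀ t, |Y t| ≤ γ)
    (hD : ∀ t : MSt E, t.1 ∈ Λ → |Dr U Y t - (-(μ t.1 * (c t - w t)) + F t)| ≤ q t.1)
    (hG : ∀ t : MSt E, t.1 ∈ Λ → Gam U Y Y t ≤ g2 t.1) :
    Ex U Λ N (fun t => Y t ^ 2) s0 ≤ Y s0 ^ 2 +
      (K * w0 ^ 2 * Rw U Λ N (fun t => μ t.1) s0 +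
        K * Rw U Λ N (fun t => μ t.1 * (w t - w0) ^ 2) s0 +
        4 * Z0 * C1 * Rw U Λ N (fun t => μ t.1) s0 + 2 * Rw U Λ N (fun t => Y t * F t) s0 +
        2 * γ * Rw U Λ N (fun t => q t.1) s0 + Rw U Λ N (fun t => g2 t.1) s0) := by
  have h1 : (fun t : MSt E => Y t ^ 2) = fun t => Y t * Y t := by
    funext t; ring
  rw [h1, tele_Dr]
  have h2 : Rw U Λ N (Dr U fun t => Y t * Y t) s0 ≤ Rw U Λ N (fun t =>
      ((((K * w0 ^ 2 * μ t.1 + K * (μ t.1 * (w t - w0) ^ 2)) + 4 * Z0 * C1 * μ t.1) +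
        2 * (Y t * F t)) + 2 * γ * q t.1) + g2 t.1) s0 := by
    refine Rw_mono Λ hU N (fun t ht => ?_) s0
    rw [Dr_mul hU]
    have ha := pw (Y t) (c t) (w t) w0 (μ t.1) (F t)
      (Dr U Y t - (-(μ t.1 * (c t - w t)) + F t)) K Z0 C1 γ (q t.1) (hμ _) hK (hYc t) (hc t)
      (hw t) (hY t) (hD t ht)
    have hb := hG t ht
    have he : -(μ t.1 * (c t - w t)) + F t + (Dr U Y t - (-(μ t.1 * (c t - w t)) + F t)) =
        Dr U Y t := by ring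
    rw [he] at ha
    linarith
  have h3 : Rw U Λ N (fun t =>
      ((((K * w0 ^ 2 * μ t.1 + K * (μ t.1 * (w t - w0) ^ 2)) + 4 * Z0 * C1 * μ t.1) +
        2 * (Y t * F t)) + 2 * γ * q t.1) + g2 t.1) s0 =
      K * w0 ^ 2 * Rw U Λ N (fun t => μ t.1) s0 +
        K * Rw U Λ N (fun t => μ t.1 * (w t - w0) ^ 2) s0 +
        4 * Z0 * C1 * Rw U Λ N (fun t => μ t.1) s0 + 2 * Rw U Λ N (fun t => Y t * F t) s0 +
        2 * γ * Rw U Λ N (fun t => q t.1) s0 + Rw U Λ N (fun t => g2 t.1) s0 := by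
    rw [Rw_add Λ N (fun t => (((K * w0 ^ 2 * μ t.1 + K * (μ t.1 * (w t - w0) ^ 2)) +
          4 * Z0 * C1 * μ t.1) + 2 * (Y t * F t)) + 2 * γ * q t.1) (fun t => g2 t.1),
      Rw_add Λ N (fun t => ((K * w0 ^ 2 * μ t.1 + K * (μ t.1 * (w t - w0) ^ 2)) +
          4 * Z0 * C1 * μ t.1) + 2 * (Y t * F t)) (fun t => 2 * γ * q t.1),
      Rw_add Λ N (fun t => (K * w0 ^ 2 * μ t.1 + K * (μ t.1 * (w t - w0) ^ 2)) +
          4 * Z0 * C1 * μ t.1) (fun t => 2 * (Y t * F t)),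
      Rw_add Λ N (fun t => K * w0 ^ 2 * μ t.1 + K * (μ t.1 * (w t - w0) ^ 2))
          (fun t => 4 * Z0 * C1 * μ t.1),
      Rw_add Λ N (fun t => K * w0 ^ 2 * μ t.1) (fun t => K * (μ t.1 * (w t - w0) ^ 2)),
      Pool.Agent.Helper99.MKV.Rw_smul Λ N (K * w0 ^ 2) (fun t => μ t.1),
      Pool.Agent.Helper99.MKV.Rw_smul Λ N K (fun t => μ t.1 * (w t - w0) ^ 2),
      Pool.Agent.Helper99.MKV.Rw_smul Λ N (4 * Z0 * C1) (fun t => μ t.1),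
      Pool.Agent.Helper99.MKV.Rw_smul Λ N 2 (fun t => Y t * F t),
      Pool.Agent.Helper99.MKV.Rw_smul Λ N (2 * γ) (fun t => q t.1)]
  rw [h3] at h2
  have h4 : Y s0 * Y s0 = Y s0 ^ 2 := by ring
  rw [h4]
  linarith

/-- final arithmetic -/
lemma arith (κ k s E c0 w0 Z0 C1 Cm Cv Cu Cg Cs Cd C Cp η Sg n R1 R2 R3 R4 R5 y0 tk : ℝ)
    (hκ : 0 < κ) (hk : 1 ≤ k) (hs : 0 ≤ s) (hZ0 : 0 ≤ Z0) (hC1 : 0 ≤ C1) (hCm : 0 ≤ Cm)
    (hCv : 0 ≤ Cv) (hCu : 0 ≤ Cu) (hCg : 0 ≤ Cg) (hCs : 0 ≤ Cs) (hCd : 0 ≤ Cd) (hC : 0 ≤ C)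
    (hη : 0 ≤ η) (hSg : 0 ≤ Sg) (htk : 0 < tk)
    (h1 : R1 ≤ Cv * (s + 1) * Cu)
    (h2 : R2 ≤ Cm * (s + 1) ^ 2 / tk)
    (h3 : R3 ≤ (s + 1) * (C * η * Cg * k + Cp))
    (h4 : R4 ≤ Cv * (s + 1) * (8 * Cs * Cd * η + Sg))
    (h5 : R5 ≤ Cv * (s + 1) * (Z0 ^ 2 * Cs))
    (hy0 : y0 ^ 2 ≤ 2 * (κ * k) ^ 2 * c0 ^ 2 + 2 * Z0 ^ 2)
    (hE : (κ * k) ^ 2 * E ≤ 2 * (y0 ^ 2 + (κ * k * w0 ^ 2 * R1 + κ * k * R2 +
      4 * Z0 * C1 * R1 + 2 * R3 + 2 * (Cg * k) * R4 + R5)) + 2 * Z0 ^ 2)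
    (hn : 2 / κ ^ 2 * (3 * Z0 ^ 2 + 4 * Z0 * C1 * Cv * Cu + 2 * Cp + Cv * Z0 ^ 2 * Cs) ≤ n) :
    E ≤ (4 + 2 / κ ^ 2 * (κ * Cv * Cu + 2 * C * Cg + 16 * Cg * Cv * Cs * Cd + 2 * Cg * Cv +
      κ * Cm)) * c0 ^ 2 + (s + 1) / k ^ 2 * (n + (4 + 2 / κ ^ 2 * (κ * Cv * Cu + 2 * C * Cg +
      16 * Cg * Cv * Cs * Cd + 2 * Cg * Cv + κ * Cm)) * k * (η + Sg + w0 ^ 2)) +
      (4 + 2 / κ ^ 2 * (κ * Cv * Cu + 2 * C * Cg + 16 * Cg * Cv * Cs * Cd + 2 * Cg * Cv +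
      κ * Cm)) * (s + 1) ^ 2 / (k * tk) := by
  have hk0 : 0 < k := by linarith
  have hs1 : 1 ≤ s + 1 := by linarith
  have hs0 : 0 ≤ s + 1 := by linarith
  -- bound of the right side of `hE`
  have a1 : κ * k * w0 ^ 2 * R1 ≤ κ * k * w0 ^ 2 * (Cv * (s + 1) * Cu) :=
    mul_le_mul_of_nonneg_left h1 (by positivity)
  have a2 : κ * k * R2 ≤ κ * k * (Cm * (s + 1) ^ 2 / tk) :=
    mul_le_mul_of_nonneg_left h2 (by positivity)
  have a3 : 4 * Z0 * C1 * R1 ≤ 4 * Z0 * C1 * (Cv * (s + 1) * Cu) :=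
    mul_le_mul_of_nonneg_left h1 (by positivity)
  have a4 : 2 * (Cg * k) * R4 ≤ 2 * (Cg * k) * (Cv * (s + 1) * (8 * Cs * Cd * η + Sg)) :=
    mul_le_mul_of_nonneg_left h4 (by positivity)
  have a5 : 3 * Z0 ^ 2 ≤ (s + 1) * (3 * Z0 ^ 2) := by
    have : 0 ≤ 3 * Z0 ^ 2 := by positivity
    nlinarith
  -- `D` the constant
  set D := 2 / κ ^ 2 * (κ * Cv * Cu + 2 * C * Cg + 16 * Cg * Cv * Cs * Cd + 2 * Cg * Cv +
    κ * Cm) with hDdef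
  have hD0 : 0 ≤ D := by positivity
  have hDk : κ ^ 2 * D = 2 * (κ * Cv * Cu + 2 * C * Cg + 16 * Cg * Cv * Cs * Cd + 2 * Cg * Cv +
    κ * Cm) := by
    rw [hDdef]; field_simp
  have hnk : 2 * (3 * Z0 ^ 2 + 4 * Z0 * C1 * Cv * Cu + 2 * Cp + Cv * Z0 ^ 2 * Cs) ≤ κ ^ 2 * n := by
    have := mul_le_mul_of_nonneg_left hn (show 0 ≤ κ ^ 2 by positivity)
    have e : κ ^ 2 * (2 / κ ^ 2 * (3 * Z0 ^ 2 + 4 * Z0 * C1 * Cv * Cu + 2 * Cp +
        Cv * Z0 ^ 2 * Cs)) = 2 * (3 * Z0 ^ 2 + 4 * Z0 * C1 * Cv * Cu + 2 * Cp +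
        Cv * Z0 ^ 2 * Cs) := by
      field_simp
    rwa [e] at this
  have hx : 0 ≤ (s + 1) := hs0
  -- coefficientwise comparison
  have b1 : (s + 1) * (2 * (3 * Z0 ^ 2 + 4 * Z0 * C1 * Cv * Cu + 2 * Cp + Cv * Z0 ^ 2 * Cs)) ≤
      (s + 1) * (κ ^ 2 * n) := mul_le_mul_of_nonneg_left hnk hs0
  have p1 : 0 ≤ κ * Cv * Cu := by positivity
  have p2 : 0 ≤ 2 * C * Cg := by positivity
  have p3 : 0 ≤ 16 * Cg * Cv * Cs * Cd := by positivity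
  have p4 : 0 ≤ 2 * Cg * Cv := by positivity
  have p5 : 0 ≤ κ * Cm := by positivity
  have hκ2 : 0 < κ ^ 2 := by positivity
  have b2 : 2 * (κ * Cv * Cu) * w0 ^ 2 ≤ κ ^ 2 * (4 + D) * w0 ^ 2 := by
    apply mul_le_mul_of_nonneg_right _ (sq_nonneg _)
    nlinarith
  have b3 : 2 * (2 * C * Cg + 16 * Cg * Cv * Cs * Cd) * η ≤ κ ^ 2 * (4 + D) * η := by
    apply mul_le_mul_of_nonneg_right _ hη
    nlinarith
  have b4 : 2 * (2 * Cg * Cv) * Sg ≤ κ ^ 2 * (4 + D) * Sg := by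
    apply mul_le_mul_of_nonneg_right _ hSg
    nlinarith
  have b5 : 2 * (κ * Cm) ≤ κ ^ 2 * (4 + D) := by nlinarith
  have b6 : (s + 1) * k * (2 * (κ * Cv * Cu) * w0 ^ 2 +
      2 * (2 * C * Cg + 16 * Cg * Cv * Cs * Cd) * η + 2 * (2 * Cg * Cv) * Sg) ≤
      (s + 1) * k * (κ ^ 2 * (4 + D) * (η + Sg + w0 ^ 2)) := by
    apply mul_le_mul_of_nonneg_left _ (by positivity)
    linarith
  have b7 : k * ((s + 1) ^ 2 / tk) * (2 * (κ * Cm)) ≤ k * ((s + 1) ^ 2 / tk) * (κ ^ 2 * (4 + D)) :=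
    mul_le_mul_of_nonneg_left b5 (by positivity)
  have b8 : 4 * (κ * k) ^ 2 * c0 ^ 2 ≤ (κ * k) ^ 2 * ((4 + D) * c0 ^ 2) := by
    have : 0 ≤ (κ * k) ^ 2 * (D * c0 ^ 2) := by positivity
    nlinarith
  have key : (κ * k) ^ 2 * E ≤ (κ * k) ^ 2 * ((4 + D) * c0 ^ 2) + (s + 1) * (κ ^ 2 * n) +
      (s + 1) * k * (κ ^ 2 * (4 + D) * (η + Sg + w0 ^ 2)) +
      k * ((s + 1) ^ 2 / tk) * (κ ^ 2 * (4 + D)) := by
    have e1 : κ * k * (Cm * (s + 1) ^ 2 / tk) = k * ((s + 1) ^ 2 / tk) * (κ * Cm) := by ring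
    rw [e1] at a2
    nlinarith
  have hkk : 0 < (κ * k) ^ 2 := by positivity
  have e2 : (κ * k) ^ 2 * ((4 + D) * c0 ^ 2 + (s + 1) / k ^ 2 * (n + (4 + D) * k *
      (η + Sg + w0 ^ 2)) + (4 + D) * (s + 1) ^ 2 / (k * tk)) =
      (κ * k) ^ 2 * ((4 + D) * c0 ^ 2) + (s + 1) * (κ ^ 2 * n) +
      (s + 1) * k * (κ ^ 2 * (4 + D) * (η + Sg + w0 ^ 2)) +
      k * ((s + 1) ^ 2 / tk) * (κ ^ 2 * (4 + D)) := by
    field_simp
    ring
  rw [← e2] at key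
  exact le_of_mul_le_mul_left key hkk

theorem SQM (hSMS : SMS_stmt) (hVIS : VIS_stmt) (hFVB : FVB_stmt) (hFIN : FIN_stmt)
    (hMRT : MRT_stmt) (hYYB : YYB_stmt) (hDYY : DYY_stmt) : SQM_stmt := by
  intro κ C b B hκ hC hb hB
  obtain ⟨Cs, hCs1, hcard, -, -, -, -, hNk, hGk, -⟩ := hSMS b hb
  obtain ⟨Cv, hCv0, hV⟩ := hVIS κ C b B hκ hC hb hB
  obtain ⟨Cf, hCf0, hF⟩ := hFVB κ C b B hκ hC hb hB
  obtain ⟨Cm, hCm0, hM⟩ := hMRT κ C b B hκ hC hb hB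
  obtain ⟨Cy, hCy0, hY⟩ := hYYB κ C b B hκ hC hb hB
  obtain ⟨Cd, hCd0, hD⟩ := hDYY κ C b B hκ hC hb hB
  have hC0 : 0 ≤ C := by linarith
  have hB0 : 0 ≤ B := by linarith
  have hCs0 : 0 ≤ Cs := by linarith
  obtain ⟨C1, hC1def⟩ : ∃ C1 : ℝ, C1 = Cs * C * B := ⟨_, rfl⟩
  have hC10 : 0 ≤ C1 := by rw [hC1def]; positivity
  obtain ⟨Cg, hCgdef⟩ : ∃ Cg : ℝ, Cg = κ * C1 + 1 := ⟨_, rfl⟩
  have hCg0 : 0 ≤ Cg := by rw [hCgdef]; positivity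
  obtain ⟨Cu, hCudef⟩ : ∃ Cu : ℝ, Cu = Cs * C := ⟨_, rfl⟩
  have hCu0 : 0 ≤ Cu := by rw [hCudef]; positivity
  refine ⟨4 + 2 / κ ^ 2 * (κ * Cv * Cu + 2 * C * Cg + 16 * Cg * Cv * Cs * Cd + 2 * Cg * Cv +
      κ * Cm), by positivity, ?_⟩
  intro η BR hη hBR
  obtain ⟨m, hm⟩ : ∃ m : ℕ, ((1 / 2 : ℝ)) ^ m < η :=
    exists_pow_lt_of_lt_one hη (by norm_num)
  obtain ⟨n1, hn1⟩ := hFIN κ C b B hκ hC hb hB η m hη
  obtain ⟨Z0, hZ0def⟩ : ∃ Z0 : ℝ, Z0 = Cy * (1 + BR) := ⟨_, rfl⟩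
  have hZ00 : 0 ≤ Z0 := by rw [hZ0def]; positivity
  obtain ⟨Cδ, hCδdef⟩ : ∃ Cδ : ℝ, Cδ = 2 * C1 * C + Cf * C * 4 ^ m + 2 * Cd + C * BR := ⟨_, rfl⟩
  have hCδ0 : 0 ≤ Cδ := by rw [hCδdef]; positivity
  obtain ⟨Cp, hCpdef⟩ : ∃ Cp : ℝ, Cp = C * n1 * (Cg + Cδ * Cs + Z0 * Cs) := ⟨_, rfl⟩
  have hCp0 : 0 ≤ Cp := by rw [hCpdef]; positivity
  obtain ⟨K0, hK0def⟩ : ∃ K0 : ℝ, K0 = 2 / κ ^ 2 * (3 * Z0 ^ 2 + 4 * Z0 * C1 * Cv * Cu + 2 * Cp +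
    Cv * Z0 ^ 2 * Cs) := ⟨_, rfl⟩
  have hK00 : 0 ≤ K0 := by rw [hK0def]; positivity
  obtain ⟨n2, hn2⟩ := exists_nat_ge (Z0 + K0)
  refine ⟨2 * m + n1 + n2, ?_⟩
  intro E ι _ U a S R T ep φ Φ k1 hDat hScx hPoi k s hkn hk1 hks N s0
  have hU := hDat.ok
  have hkm : k1 + m ≤ k := by omega
  have hk1k : k1 ≤ k := by omega
  have hmk : m ≤ k := by omega
  have hks' : k ≤ s := by omega
  have hk1s : k1 ≤ s := by omega
  have hkR : (1 : ℝ) ≤ k := by exact_mod_cast hk1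
  have hk0R : (0 : ℝ) < k := by linarith
  have hn2k : (n2 : ℝ) ≤ k := by
    have : n2 ≤ k := by omega
    exact_mod_cast this
  have hZk : Z0 ≤ k := by linarith
  have hs0R : (0 : ℝ) ≤ s := Nat.cast_nonneg s
  have h4k : (0 : ℝ) < 4 ^ k := by positivity
  -- the weight
  have hh0 : ∀ x, x ∉ Bx b k → hk Φ k x = 0 := fun x hx => hScx.hS k hk1k x hx
  have hh1 : ∀ x, |hk Φ k x| ≤ C / 4 ^ k := fun x => hScx.h1 k hk1k x
  have hWt : Wt b k C (hk Φ k) := ⟨hC0, hh0, hh1, fun x y => hScx.hL k hk1k x y⟩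
  have hRt : Rt b k C (hk Φ k) := ⟨hC0, hh0, hh1⟩
  have hcardk : ((Bx b k).card : ℝ) * (C / 4 ^ k) ≤ Cu := by
    rw [hCudef]
    calc ((Bx b k).card : ℝ) * (C / 4 ^ k) ≤ Cs * 4 ^ k * (C / 4 ^ k) :=
          mul_le_mul_of_nonneg_right (hcard k) (by positivity)
      _ = Cs * C := by field_simp
  have hcardB : ((Bx b k).card : ℝ) * (C / 4 ^ k * B) ≤ C1 := by
    rw [hC1def]
    calc ((Bx b k).card : ℝ) * (C / 4 ^ k * B) ≤ Cs * 4 ^ k * (C / 4 ^ k * B) :=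
          mul_le_mul_of_nonneg_right (hcard k) (by positivity)
      _ = Cs * C * B := by field_simp
  have hcbd : ∀ t : MSt E, |ck Φ S b k t| ≤ C1 := fun t =>
    (VV_bd S (Bx b k) (hk Φ k) (C / 4 ^ k) B (by positivity) hh1 hDat.bd t).trans hcardB
  have hwbd : ∀ t : MSt E, |VV T (Bx b k) (hk Φ k) t| ≤ C1 := fun t =>
    (VV_bd T (Bx b k) (hk Φ k) (C / 4 ^ k) B (by positivity) hh1 hPoi.bT t).trans hcardB
  -- the kernel mu
  have hμ0 : ∀ x, 0 ≤ La a (Φ k) x := hScx.mu0 k hk1k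
  have hμ1 : ∀ x, La a (Φ k) x ≤ C / 4 ^ k := hScx.mu1 k hk1k
  have hμS : ∀ x, x ∉ Bx b k → La a (Φ k) x = 0 := hScx.muS k hk1k
  have hsub : Bx b k ⊆ Bx b (k + 1) := Bx_mono b (Nat.le_succ k)
  -- Y
  have hYc : ∀ t : MSt E, |YY κ φ Φ S R T b m k s t - κ * k * ck Φ S b k t| ≤ Z0 := fun t => by
    rw [hZ0def]; exact (hY E ι U a BR S R T ep φ Φ k1 hDat hScx hPoi m k s hkm hks' t).1
  have hYi : ∀ (t : MSt E) (i : ι) (e : Dir 2), |YY κ φ Φ S R T b m k s (nxt U t i e) -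
      YY κ φ Φ S R T b m k s t| ≤ Z0 * Gk b k t.1 := fun t => by
    rw [hZ0def]; exact (hY E ι U a BR S R T ep φ Φ k1 hDat hScx hPoi m k s hkm hks' t).2
  have hYb : ∀ t : MSt E, |YY κ φ Φ S R T b m k s t| ≤ Cg * k := fun t => by
    have h1 := hYc t
    have h2 : |κ * k * ck Φ S b k t| ≤ κ * k * C1 := by
      rw [abs_mul, abs_of_nonneg (show 0 ≤ κ * k by positivity)]
      exact mul_le_mul_of_nonneg_left (hcbd t) (by positivity)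
    have h3 : |YY κ φ Φ S R T b m k s t| ≤
        |YY κ φ Φ S R T b m k s t - κ * k * ck Φ S b k t| + |κ * k * ck Φ S b k t| := by
      have := abs_add_le (YY κ φ Φ S R T b m k s t - κ * k * ck Φ S b k t)
        (κ * k * ck Φ S b k t)
      simpa using this
    rw [hCgdef]
    nlinarith
  -- the error
  obtain ⟨q, hqdef⟩ : ∃ q : Site 2 → ℝ, q = fun x =>
    (if x ∈ Bx b (k + 1) then Cd * (1 / 2 ^ m + 1 / 4 ^ (k - m)) / 4 ^ k else 0) +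
      |hk Φ k x| * ep x := ⟨_, rfl⟩
  have hq0 : ∀ x, 0 ≤ q x := fun x => by
    rw [hqdef]
    have h1 := hPoi.e0 x
    have h2 : 0 ≤ |hk Φ k x| * ep x := mul_nonneg (abs_nonneg _) h1
    dsimp only
    split_ifs
    · positivity
    · linarith
  have hDr : ∀ t : MSt E, t.1 ∈ Bx b (s + 1) → |Dr U (YY κ φ Φ S R T b m k s) t -
      (-(La a (Φ k) t.1 * (ck Φ S b k t - VV T (Bx b k) (hk Φ k) t)) +
        dd U a t * fv Φ S b (k - m) k (hk Φ k) t)| ≤ q t.1 := fun t ht => by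
    rw [hqdef]; exact hD E ι U a BR S R T ep φ Φ k1 hDat hScx hPoi m k s hkm hks' t ht
  have hdd : ∀ t : MSt E, |dd U a t| ≤ 1 := fun t => by
    unfold Pool.Agent.Helper99.MKV.dd
    have h1 := hU.f0 t.1 (t.2 t.1)
    have h2 := hU.f1 t.1 (t.2 t.1)
    have h3 := hDat.a0
    have h4 := hDat.a1
    rw [abs_le]; constructor <;> linarith
  have hfv : ∀ t : MSt E, |fv Φ S b (k - m) k (hk Φ k) t| ≤ Cf * C * 4 ^ m * Nk b k t.1 :=
    fun t => by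
      have h1 := (hF E ι U a S φ Φ k1 hDat hScx (k - m) k (by omega) (by omega) C (hk Φ k)
        hRt t).1
      have h2 : k - (k - m) = m := by omega
      rwa [h2] at h1
  have hp2 : (1 : ℝ) / 2 ^ m ≤ η := by
    have : ((1 / 2 : ℝ)) ^ m = 1 / 2 ^ m := by rw [one_div_pow]
    rw [← this]; exact hm.le
  have hp4 : (1 : ℝ) / 4 ^ (k - m) ≤ η := by
    have h1 : (2 : ℝ) ^ m ≤ 4 ^ (k - m) := by
      calc (2 : ℝ) ^ m ≤ 4 ^ m := pow_le_pow_left₀ (by norm_num) (by norm_num) m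
        _ ≤ 4 ^ (k - m) := pow_le_pow_right₀ (by norm_num) (by omega)
    exact (one_div_le_one_div_of_le (by positivity) h1).trans hp2
  have hp2' : (1 : ℝ) / 2 ^ m ≤ 1 := by
    rw [div_le_one (by positivity)]; exact one_le_pow₀ (by norm_num)
  have hp4' : (1 : ℝ) / 4 ^ (k - m) ≤ 1 := by
    rw [div_le_one (by positivity)]; exact one_le_pow₀ (by norm_num)
  -- bound of the drift
  have hδ : ∀ t : MSt E, t.1 ∈ Bx b (s + 1) →
      |Dr U (YY κ φ Φ S R T b m k s) t| ≤ Cδ * Nk b k t.1 := fun t ht => by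
    have h1 := hDr t ht
    have hN := Nk_nn b k t.1
    have h2 : |La a (Φ k) t.1 * (ck Φ S b k t - VV T (Bx b k) (hk Φ k) t)| ≤
        2 * C1 * C * Nk b k t.1 := by
      rw [abs_mul, abs_of_nonneg (hμ0 _)]
      have h3 : |ck Φ S b k t - VV T (Bx b k) (hk Φ k) t| ≤ 2 * C1 := by
        have := abs_sub (ck Φ S b k t) (VV T (Bx b k) (hk Φ k) t)
        linarith [hcbd t, hwbd t]
      by_cases hx : t.1 ∈ Bx b k
      · have hx1 := hsub hx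
        have h4 : Nk b k t.1 = 1 / 4 ^ k := by unfold Nk; rw [if_pos hx1]
        rw [h4]
        calc La a (Φ k) t.1 * |ck Φ S b k t - VV T (Bx b k) (hk Φ k) t|
            ≤ C / 4 ^ k * (2 * C1) := mul_le_mul (hμ1 _) h3 (abs_nonneg _) (by positivity)
          _ = 2 * C1 * C * (1 / 4 ^ k) := by ring
      · rw [hμS _ hx, zero_mul]
        positivity
    have h5 : |dd U a t * fv Φ S b (k - m) k (hk Φ k) t| ≤ Cf * C * 4 ^ m * Nk b k t.1 := by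
      rw [abs_mul]
      calc |dd U a t| * |fv Φ S b (k - m) k (hk Φ k) t| ≤ 1 * (Cf * C * 4 ^ m * Nk b k t.1) :=
            mul_le_mul (hdd t) (hfv t) (abs_nonneg _) (by norm_num)
        _ = _ := one_mul _
    have h6 : q t.1 ≤ (2 * Cd + C * BR) * Nk b k t.1 := by
      rw [hqdef]
      dsimp only
      have h7 : (if t.1 ∈ Bx b (k + 1) then Cd * (1 / 2 ^ m + 1 / 4 ^ (k - m)) / 4 ^ k else 0) ≤
          2 * Cd * Nk b k t.1 := by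
        split_ifs with hx
        · have h4 : Nk b k t.1 = 1 / 4 ^ k := by unfold Nk; rw [if_pos hx]
          rw [h4, ← div_eq_mul_one_div]
          apply div_le_div_of_nonneg_right _ h4k.le
          nlinarith
        · positivity
      have h8 : |hk Φ k t.1| * ep t.1 ≤ C * BR * Nk b k t.1 := by
        by_cases hx : t.1 ∈ Bx b k
        · have hx1 := hsub hx
          have h4 : Nk b k t.1 = 1 / 4 ^ k := by unfold Nk; rw [if_pos hx1]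
          rw [h4]
          calc |hk Φ k t.1| * ep t.1 ≤ C / 4 ^ k * BR :=
                mul_le_mul (hh1 _) (hPoi.e1 _) (hPoi.e0 _) (by positivity)
            _ = C * BR * (1 / 4 ^ k) := by ring
        · rw [hh0 _ hx, abs_zero, zero_mul]
          positivity
      linarith
    have h9 : |Dr U (YY κ φ Φ S R T b m k s) t| ≤ q t.1 +
        (|La a (Φ k) t.1 * (ck Φ S b k t - VV T (Bx b k) (hk Φ k) t)| +
          |dd U a t * fv Φ S b (k - m) k (hk Φ k) t|) := by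
      have e1 := abs_le.mp h1
      have e2 := abs_le.mp (le_refl |La a (Φ k) t.1 * (ck Φ S b k t -
        VV T (Bx b k) (hk Φ k) t)|)
      have e3 := abs_le.mp (le_refl |dd U a t * fv Φ S b (k - m) k (hk Φ k) t|)
      rw [abs_le]
      constructor <;> linarith [e1.1, e1.2, e2.1, e2.2, e3.1, e3.2]
    rw [hCδdef]
    nlinarith
  -- the main term
  have hmain := hn1 E ι U a S φ Φ k1 hDat hScx k s hkm (by omega) hk1 (by omega) N s0 C (hk Φ k)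
    hWt (YY κ φ Φ S R T b m k s) (Cg * k) (fun x => Cδ * Nk b k x) (fun x => Z0 * Gk b k x) hYb
    (fun x => mul_nonneg hCδ0 (Nk_nn b k x)) (fun x => mul_nonneg hZ00 (Gk_nn b k x)) hδ
    (fun t _ i e => hYi t i e)
  have hsumN : ∑ x ∈ Bx b (s + 1), Cδ * Nk b k x ≤ Cδ * Cs := by
    rw [← Finset.mul_sum]
    exact mul_le_mul_of_nonneg_left (hNk k (s + 1)) hCδ0
  have hsumG : ∑ x ∈ Bx b (s + 1), Z0 * Gk b k x * Gk b k x ≤ Z0 * Cs := by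
    have : ∑ x ∈ Bx b (s + 1), Z0 * Gk b k x * Gk b k x =
        Z0 * ∑ x ∈ Bx b (s + 1), Gk b k x ^ 2 := by
      rw [Finset.mul_sum]
      refine Finset.sum_congr rfl fun x _ => ?_
      ring
    rw [this]
    exact mul_le_mul_of_nonneg_left (hGk k (s + 1)) hZ00
  have hR3 : Rw U (Bx b (s + 1)) N (fun t => YY κ φ Φ S R T b m k s t *
      (dd U a t * fv Φ S b (k - m) k (hk Φ k) t)) s0 ≤ (s + 1) * (C * η * Cg * k + Cp) := by
    refine (le_abs_self _).trans (hmain.trans ?_)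
    have h1 : (n1 : ℝ) / k * (Cg * k + ∑ x ∈ Bx b (s + 1), Cδ * Nk b k x +
        ∑ x ∈ Bx b (s + 1), Z0 * Gk b k x * Gk b k x) ≤ n1 * (Cg + Cδ * Cs + Z0 * Cs) := by
      have h2 : (n1 : ℝ) / k * (Cg * k) = n1 * Cg := by field_simp
      have h3 : (n1 : ℝ) / k ≤ n1 := div_le_self (Nat.cast_nonneg _) hkR
      have h4 : (0 : ℝ) ≤ n1 / k := by positivity
      calc (n1 : ℝ) / k * (Cg * k + ∑ x ∈ Bx b (s + 1), Cδ * Nk b k x +
          ∑ x ∈ Bx b (s + 1), Z0 * Gk b k x * Gk b k x)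
          ≤ (n1 : ℝ) / k * (Cg * k + Cδ * Cs + Z0 * Cs) :=
            mul_le_mul_of_nonneg_left (by linarith) h4
        _ = n1 * Cg + n1 / k * (Cδ * Cs + Z0 * Cs) := by rw [← h2]; ring
        _ ≤ n1 * Cg + n1 * (Cδ * Cs + Z0 * Cs) := by
            have := mul_le_mul_of_nonneg_right h3 (show 0 ≤ Cδ * Cs + Z0 * Cs by positivity)
            linarith
        _ = n1 * (Cg + Cδ * Cs + Z0 * Cs) := by ring
    have h5 : C * (s + 1) * (η * (Cg * k) + (n1 : ℝ) / k * (Cg * k +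
        ∑ x ∈ Bx b (s + 1), Cδ * Nk b k x +
        ∑ x ∈ Bx b (s + 1), Z0 * Gk b k x * Gk b k x)) ≤
        C * (s + 1) * (η * (Cg * k) + n1 * (Cg + Cδ * Cs + Z0 * Cs)) :=
      mul_le_mul_of_nonneg_left (by linarith) (by positivity)
    refine h5.trans (le_of_eq ?_)
    rw [hCpdef]; ring
  -- occupation
  have hR1 : Rw U (Bx b (s + 1)) N (fun t => La a (Φ k) t.1) s0 ≤ Cv * (s + 1) * Cu := by
    refine (hV E ι U a S φ Φ k1 hDat hScx s hk1s N s0 (fun x => La a (Φ k) x) hμ0).trans ?_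
    apply mul_le_mul_of_nonneg_left _ (by positivity)
    exact (sum_card _ (Bx b k) _ (C / 4 ^ k) hμ0 hμS hμ1).trans hcardk
  have hR2 := hM E ι U a S T φ Φ k1 hDat hScx hPoi.bT hPoi.hT k s hk1k hks' N s0
  have hSg0 : 0 ≤ ∑ x ∈ Bx b k, |hk Φ k x| * ep x :=
    Finset.sum_nonneg fun x _ => mul_nonneg (abs_nonneg _) (hPoi.e0 x)
  have hR4 : Rw U (Bx b (s + 1)) N (fun t => q t.1) s0 ≤
      Cv * (s + 1) * (8 * Cs * Cd * η + ∑ x ∈ Bx b k, |hk Φ k x| * ep x) := by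
    refine (hV E ι U a S φ Φ k1 hDat hScx s hk1s N s0 q hq0).trans ?_
    apply mul_le_mul_of_nonneg_left _ (by positivity)
    rw [hqdef, Finset.sum_add_distrib]
    have h1 : ∑ x ∈ Bx b (s + 1), (if x ∈ Bx b (k + 1) then
        Cd * (1 / 2 ^ m + 1 / 4 ^ (k - m)) / 4 ^ k else 0) ≤ 8 * Cs * Cd * η := by
      refine (sum_card _ (Bx b (k + 1)) _ (Cd * (1 / 2 ^ m + 1 / 4 ^ (k - m)) / 4 ^ k)
        (fun x => ?_) (fun x hx => if_neg hx) (fun x => ?_)).trans ?_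
      · split_ifs
        · positivity
        · exact le_refl _
      · split_ifs
        · exact le_refl _
        · positivity
      · have h2 := hcard (k + 1)
        calc ((Bx b (k + 1)).card : ℝ) * (Cd * (1 / 2 ^ m + 1 / 4 ^ (k - m)) / 4 ^ k)
            ≤ (Cs * 4 ^ (k + 1)) * (Cd * (1 / 2 ^ m + 1 / 4 ^ (k - m)) / 4 ^ k) :=
              mul_le_mul_of_nonneg_right h2 (by positivity)
          _ = 4 * Cs * Cd * (1 / 2 ^ m + 1 / 4 ^ (k - m)) := by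
              rw [pow_succ]; field_simp
          _ ≤ 4 * Cs * Cd * (η + η) := mul_le_mul_of_nonneg_left (by linarith) (by positivity)
          _ = 8 * Cs * Cd * η := by ring
    have h3 : ∑ x ∈ Bx b (s + 1), |hk Φ k x| * ep x ≤ ∑ x ∈ Bx b k, |hk Φ k x| * ep x :=
      sum_supp _ _ _ (fun x => mul_nonneg (abs_nonneg _) (hPoi.e0 x))
        (fun x hx => by rw [hh0 x hx, abs_zero, zero_mul])
    exact add_le_add h1 h3
  have hR5 : Rw U (Bx b (s + 1)) N (fun t => Z0 ^ 2 * Gk b k t.1 ^ 2) s0 ≤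
      Cv * (s + 1) * (Z0 ^ 2 * Cs) := by
    refine (hV E ι U a S φ Φ k1 hDat hScx s hk1s N s0 (fun x => Z0 ^ 2 * Gk b k x ^ 2)
      (fun x => by positivity)).trans ?_
    apply mul_le_mul_of_nonneg_left _ (by positivity)
    rw [← Finset.mul_sum]
    exact mul_le_mul_of_nonneg_left (hGk k (s + 1)) (by positivity)
  have hcore := core hU (Bx b (s + 1)) N s0 (YY κ φ Φ S R T b m k s) (ck Φ S b k)
    (VV T (Bx b k) (hk Φ k)) (fun t => dd U a t * fv Φ S b (k - m) k (hk Φ k) t)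
    (La a (Φ k)) q (fun x => Z0 ^ 2 * Gk b k x ^ 2) (κ * k) Z0 C1 (Cg * k)
    (VV T (Bx b k) (hk Φ k) s0) hμ0 (by positivity) hYc hcbd hwbd hYb hDr
    (fun t _ => by
      refine (le_abs_self _).trans ((Gam_abs_le hU (mul_nonneg hZ00 (Gk_nn b k t.1))
        (hYi t) (hYi t)).trans (le_of_eq ?_))
      ring)
  -- conclusion
  have hEE : (κ * k) ^ 2 * Ex U (Bx b (s + 1)) N (fun t => ck Φ S b k t ^ 2) s0 ≤
      2 * Ex U (Bx b (s + 1)) N (fun t => YY κ φ Φ S R T b m k s t ^ 2) s0 + 2 * Z0 ^ 2 := by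
    have h1 := Pool.Agent.Helper99.MKV.Ex_mono (Bx b (s + 1)) hU N
      (F := fun t => (κ * k) ^ 2 * ck Φ S b k t ^ 2)
      (G := fun t => 2 * YY κ φ Φ S R T b m k s t ^ 2 + 2 * Z0 ^ 2) (fun t => by
        have h2 := hYc t
        have h3 : (YY κ φ Φ S R T b m k s t - κ * k * ck Φ S b k t) ^ 2 ≤ Z0 ^ 2 :=
          sq_le_sq' (by linarith [(abs_le.mp h2).1]) (abs_le.mp h2).2
        nlinarith [sq_nonneg (YY κ φ Φ S R T b m k s t +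
          (YY κ φ Φ S R T b m k s t - κ * k * ck Φ S b k t))]) s0
    rw [Pool.Agent.Helper99.MKV.Ex_add (Bx b (s + 1)) N
        (fun t => 2 * YY κ φ Φ S R T b m k s t ^ 2) (fun _ => 2 * Z0 ^ 2),
      Pool.Agent.Helper99.MKV.Ex_smul (Bx b (s + 1)) N ((κ * k) ^ 2)
        (fun t => ck Φ S b k t ^ 2),
      Pool.Agent.Helper99.MKV.Ex_smul (Bx b (s + 1)) N 2
        (fun t => YY κ φ Φ S R T b m k s t ^ 2),
      Pool.Agent.Helper99.MKV.Ex_const (Bx b (s + 1)) hU] at h1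
    exact h1
  have hy0 : YY κ φ Φ S R T b m k s s0 ^ 2 ≤ 2 * (κ * k) ^ 2 * ck Φ S b k s0 ^ 2 + 2 * Z0 ^ 2 := by
    have h2 := hYc s0
    have h3 : (YY κ φ Φ S R T b m k s s0 - κ * k * ck Φ S b k s0) ^ 2 ≤ Z0 ^ 2 :=
      sq_le_sq' (by linarith [(abs_le.mp h2).1]) (abs_le.mp h2).2
    nlinarith [sq_nonneg (κ * k * ck Φ S b k s0 -
      (YY κ φ Φ S R T b m k s s0 - κ * k * ck Φ S b k s0))]
  have hn : 2 / κ ^ 2 * (3 * Z0 ^ 2 + 4 * Z0 * C1 * Cv * Cu + 2 * Cp + Cv * Z0 ^ 2 * Cs) ≤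
      ((2 * m + n1 + n2 : ℕ) : ℝ) := by
    rw [← hK0def]
    have h1 : (n2 : ℝ) ≤ ((2 * m + n1 + n2 : ℕ) : ℝ) := by
      exact_mod_cast (by omega : n2 ≤ 2 * m + n1 + n2)
    linarith
  exact arith κ k s _ (ck Φ S b k s0) (VV T (Bx b k) (hk Φ k) s0) Z0 C1 Cm Cv Cu Cg Cs Cd C Cp η
    (∑ x ∈ Bx b k, |hk Φ k x| * ep x) _ _ _ _ _ _ (YY κ φ Φ S R T b m k s s0) (2 ^ k) hκ hkR hs0R
    hZ00 hC10 hCm0 hCv0 hCu0 hCg0 hCs0 hCd0 hC0 hη.le hSg0 (by positivity) hR1 hR2 hR3 hR4 hR5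
    hy0 (by linarith [hEE, hcore]) hn

end Pool.Agent.Helper79.MKV
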